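import Pool.Agent.K3h35.NX.Stm

/-!
# Liouville's theorem with a one-sided logarithmic bound
-/

set_option autoImplicit false
open MeasureTheory Filter Topology Set Metric

namespace Pool.Agent.K3h66.NX

open Pool.Agent.H314.Dir

/-- pointwise comparison of the kernels -/
theorem rho_le (u e : Eu 2) {δ : ℝ} (hδ : 0 ≤ δ) (he : 2 * ‖e‖ ≤ δ) :
    rho u ≤ (1 + δ) ^ 6 * rho ((1 + δ)⁻¹ • (u + e)) := by
  have h1 : (0 : ℝ) < 1 + δ := by linarith
  have key : max 0 (1 - ‖u‖ ^ 2) ≤ (1 + δ) ^ 2 * max 0 (1 - ‖(1 + δ)⁻¹ • (u + e)‖ ^ 2) := by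
    rcases le_or_gt (1 : ℝ) ‖u‖ with hu | hu
    · rw [max_eq_left (by nlinarith [norm_nonneg u])]
      positivity
    · have h2 : ‖u + e‖ ≤ ‖u‖ + ‖e‖ := norm_add_le _ _
      have h3 : 1 - ‖u‖ ^ 2 ≤ (1 + δ) ^ 2 * (1 - ‖(1 + δ)⁻¹ • (u + e)‖ ^ 2) := by
        rw [norm_smul, Real.norm_of_nonneg (inv_nonneg.2 h1.le), mul_pow, mul_sub, ← mul_assoc,
          ← mul_pow, mul_inv_cancel₀ h1.ne']
        nlinarith [norm_nonneg u, norm_nonneg e, norm_nonneg (u + e)]
      refine max_le (by positivity) (h3.trans ?_)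
      exact mul_le_mul_of_nonneg_left (le_max_right _ _) (by positivity)
  have hc : 0 < cst 2 := cst_pos 2
  unfold rho rho0
  rw [← mul_div_assoc, div_le_div_iff_of_pos_right hc]
  calc (max 0 (1 - ‖u‖ ^ 2)) ^ 3 ≤
      ((1 + δ) ^ 2 * max 0 (1 - ‖(1 + δ)⁻¹ • (u + e)‖ ^ 2)) ^ 3 :=
        pow_le_pow_left₀ (le_max_left _ _) key 3
    _ = _ := by ring

theorem integrable_aux {g : Eu 2 → ℝ} (hg : Continuous g) {s : ℝ} (hs : 0 < s) (x : Eu 2) :
    Integrable (fun t => g t • rho (-(s⁻¹ • (x - t)))) := by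
  refine Continuous.integrable_of_hasCompactSupport ?_ ?_
  · exact hg.smul ((contDiff_rho (d := 2)).continuous.comp (by fun_prop))
  · refine HasCompactSupport.intro (isCompact_closedBall x s) fun t ht => ?_
    rw [rho_eq_zero, smul_zero]
    rw [mem_closedBall, not_le, dist_eq_norm] at ht
    rw [norm_neg, norm_smul, norm_inv, Real.norm_of_nonneg hs.le, norm_sub_rev,
      le_inv_mul_iff₀ hs]
    linarith

/-- Harnack's inequality. -/
theorem harnack {g : Eu 2 → ℝ} (hg : ContDiff ℝ 2 g) (hl : ∀ x, lap g x = 0) {R : ℝ} (hR : 0 < R)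
    (a b : Eu 2) {δ : ℝ} (hδ : 0 ≤ δ) (hab : 2 * ‖b - a‖ ≤ δ * R)
    (hpos : ∀ y, ‖y - a‖ ≤ (1 + δ) * R → 0 ≤ g y) : g b ≤ (1 + δ) ^ 8 * g a := by
  have h1δ : (0 : ℝ) < 1 + δ := by linarith
  have hrep : ∀ (S : ℝ), 0 < S → ∀ x, g x = J rho g S x := by
    intro S hS x
    have h1 := Pool.Agent.K3h35.NX.rep hg hS x
    have h2 : ∀ s : ℝ, s * J sig (fun y => - lap g y) s x = 0 := by
      intro s
      have h3 : (fun y => - lap g y) = fun _ => (0 : ℝ) := by
        funext y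
        rw [hl y, neg_zero]
      rw [h3]
      simp [J]
    simp only [h2, intervalIntegral.integral_zero, add_zero] at h1
    exact h1
  have hR' : 0 < (1 + δ) * R := by positivity
  rw [hrep R hR b, hrep _ hR' a, J_eq_conv rho g hR b, J_eq_conv rho g hR' a, smul_eq_mul,
    smul_eq_mul]
  have hcmp : ∀ t, g t • rho (-(R⁻¹ • (b - t))) ≤
      (1 + δ) ^ 6 * (g t • rho (-(((1 + δ) * R)⁻¹ • (a - t)))) := by
    intro t
    have h1 := rho_le (-(R⁻¹ • (b - t))) (R⁻¹ • (b - a)) hδ (by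
      rw [norm_smul, norm_inv, Real.norm_of_nonneg hR.le, ← mul_assoc, mul_comm 2, mul_assoc,
        inv_mul_le_iff₀ hR]
      linarith)
    have h2 : (1 + δ)⁻¹ • (-(R⁻¹ • (b - t)) + R⁻¹ • (b - a)) =
        -(((1 + δ) * R)⁻¹ • (a - t)) := by
      rw [mul_inv]
      module
    rw [h2] at h1
    simp only [smul_eq_mul]
    rcases le_or_gt ‖t - a‖ ((1 + δ) * R) with ht | ht
    · have := mul_le_mul_of_nonneg_left h1 (hpos t ht)
      linarith
    · have h3 : rho (-(((1 + δ) * R)⁻¹ • (a - t))) = 0 := by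
        apply rho_eq_zero
        rw [norm_neg, norm_smul, norm_inv, Real.norm_of_nonneg hR'.le, norm_sub_rev,
          le_inv_mul_iff₀ hR']
        linarith
      have h4 : rho (-(R⁻¹ • (b - t))) = 0 := by
        apply le_antisymm _ (rho_nonneg _)
        rw [h3, mul_zero] at h1
        exact h1
      rw [h3, h4, mul_zero, mul_zero]
  have hint := integral_mono (integrable_aux hg.continuous hR b)
    ((integrable_aux hg.continuous hR' a).const_mul ((1 + δ) ^ 6)) hcmp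
  rw [integral_const_mul] at hint
  have h5 : (R ^ 2)⁻¹ = (1 + δ) ^ 2 * (((1 + δ) * R) ^ 2)⁻¹ := by
    field_simp
  calc (R ^ 2)⁻¹ * ∫ t, g t • rho (-(R⁻¹ • (b - t))) ≤
      (R ^ 2)⁻¹ * ((1 + δ) ^ 6 * ∫ t, g t • rho (-(((1 + δ) * R)⁻¹ • (a - t)))) :=
        mul_le_mul_of_nonneg_left hint (by positivity)
    _ = _ := by rw [h5]; ring

theorem pow_le_aux {δ : ℝ} (h0 : 0 ≤ δ) (h1 : δ ≤ 1) : (1 + δ) ^ 8 ≤ 1 + 255 * δ := by
  have h2 : δ ^ 2 ≤ δ := by nlinarith
  have h3 : δ ^ 3 ≤ δ := by nlinarith [mul_nonneg h0 h0]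
  have h4 : δ ^ 4 ≤ δ := by nlinarith [mul_nonneg h0 h0]
  have h5 : δ ^ 5 ≤ δ := by nlinarith [mul_nonneg h0 (pow_nonneg h0 4), mul_nonneg h0 h0]
  have h6 : δ ^ 6 ≤ δ := by nlinarith [mul_nonneg h0 (pow_nonneg h0 5), mul_nonneg h0 h0]
  have h7 : δ ^ 7 ≤ δ := by nlinarith [mul_nonneg h0 (pow_nonneg h0 6), mul_nonneg h0 h0]
  have h8 : δ ^ 8 ≤ δ := by nlinarith [mul_nonneg h0 (pow_nonneg h0 7), mul_nonneg h0 h0]
  nlinarith

theorem le_of_bound {h : Eu 2 → ℝ} {C : ℝ} (hh : ContDiff ℝ 2 h) (hl : ∀ x, lap h x = 0)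
    (hC : 0 ≤ C) (hb : ∀ x, h x ≤ C * (1 + Real.log (1 + ‖x‖ ^ 2))) (a b : Eu 2) :
    h a ≤ h b := by
  -- the bound on the ball with centre `a`
  let m : ℝ → ℝ := fun R => C * (1 + Real.log (1 + (‖a‖ + 2 * R) ^ 2))
  have key : ∀ R : ℝ, 0 < R → 2 * ‖b - a‖ ≤ R →
      h a ≤ h b + 255 * (2 * ‖b - a‖ / R) * (m R - h a) := by
    intro R hR hR2
    set δ : ℝ := 2 * ‖b - a‖ / R with hδ
    have h0 : 0 ≤ δ := by positivity
    have h1 : δ ≤ 1 := (div_le_one hR).2 hR2
    have hball : ∀ y : Eu 2, ‖y - a‖ ≤ (1 + δ) * R → h y ≤ m R := by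
      intro y hy
      refine (hb y).trans (mul_le_mul_of_nonneg_left ?_ hC)
      have h2 : ‖y‖ ≤ ‖a‖ + 2 * R := by
        have h3 : ‖y‖ ≤ ‖y - a‖ + ‖a‖ := by
          calc ‖y‖ = ‖(y - a) + a‖ := by rw [sub_add_cancel]
            _ ≤ _ := norm_add_le _ _
        nlinarith
      have h4 : ‖y‖ ^ 2 ≤ (‖a‖ + 2 * R) ^ 2 := pow_le_pow_left₀ (norm_nonneg _) h2 2
      have h5 : Real.log (1 + ‖y‖ ^ 2) ≤ Real.log (1 + (‖a‖ + 2 * R) ^ 2) :=
        Real.log_le_log (by positivity) (by linarith)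
      linarith
    have hg : ContDiff ℝ 2 (fun y => m R - h y) := contDiff_const.sub hh
    have hgl : ∀ x, lap (fun y => m R - h y) x = 0 := by
      intro x
      have := lap_sub (u := fun _ : Eu 2 => m R) (v := h) (x := x) contDiffAt_const hh.contDiffAt
      rw [lap_const, hl x, sub_zero] at this
      exact this
    have h2 := harnack hg hgl hR a b h0 (by rw [hδ, div_mul_cancel₀ _ hR.ne'])
      (fun y hy => sub_nonneg.2 (hball y hy))
    have h3 : 0 ≤ m R - h a := by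
      apply sub_nonneg.2
      apply hball
      rw [sub_self, norm_zero]
      positivity
    have h4 := mul_le_mul_of_nonneg_right (pow_le_aux h0 h1) h3
    nlinarith
  have hlim : Tendsto (fun R : ℝ => h b + 255 * (2 * ‖b - a‖ / R) * (m R - h a)) atTop
      (𝓝 (h b)) := by
    have hL : Tendsto (fun R : ℝ => Real.log (1 + (‖a‖ + 2 * R) ^ 2) / R) atTop (𝓝 0) := by
      have h1 : Tendsto (fun R : ℝ => Real.log R / R) atTop (𝓝 0) :=
        Real.isLittleO_log_id_atTop.tendsto_div_nhds_zero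
      have h2 : Tendsto (fun R : ℝ => Real.log 10 / R) atTop (𝓝 0) :=
        tendsto_const_nhds.div_atTop tendsto_id
      have h3 : Tendsto (fun R : ℝ => Real.log 10 / R + 2 * (Real.log R / R)) atTop (𝓝 0) := by
        simpa using h2.add (h1.const_mul 2)
      refine squeeze_zero' ?_ ?_ h3
      · filter_upwards [eventually_gt_atTop 0] with R hR
        exact div_nonneg (Real.log_nonneg (by nlinarith [sq_nonneg (‖a‖ + 2 * R)])) hR.le
      · filter_upwards [eventually_ge_atTop 1, eventually_ge_atTop ‖a‖] with R hR1 hRa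
        have hR : 0 < R := by linarith
        rw [← mul_div_assoc, ← add_div, div_le_div_iff_of_pos_right hR]
        have h4 : 1 + (‖a‖ + 2 * R) ^ 2 ≤ 10 * R ^ 2 := by nlinarith [norm_nonneg a]
        calc Real.log (1 + (‖a‖ + 2 * R) ^ 2) ≤ Real.log (10 * R ^ 2) :=
              Real.log_le_log (by positivity) h4
          _ = Real.log 10 + 2 * Real.log R := by
              rw [Real.log_mul (by norm_num) (by positivity), Real.log_pow]
              norm_num
    have h5 : Tendsto (fun R : ℝ => (C - h a) / R) atTop (𝓝 0) :=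
      tendsto_const_nhds.div_atTop tendsto_id
    have h6 : Tendsto (fun R : ℝ => h b + 510 * ‖b - a‖ *
        ((C - h a) / R + C * (Real.log (1 + (‖a‖ + 2 * R) ^ 2) / R))) atTop (𝓝 (h b)) := by
      have := ((h5.add (hL.const_mul C)).const_mul (510 * ‖b - a‖)).const_add (h b)
      simpa using this
    refine h6.congr fun R => ?_
    simp only [m]
    ring
  refine ge_of_tendsto hlim ?_
  filter_upwards [eventually_gt_atTop 0, eventually_ge_atTop (2 * ‖b - a‖)] with R h1 h2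
  exact key R h1 h2

theorem t_X2 : Pool.Agent.K3h35.NX.St_X2 := by
  intro h C hh hl hb x
  have hb' : ∀ x, h x ≤ |C| * (1 + Real.log (1 + ‖x‖ ^ 2)) := by
    intro x
    refine (hb x).trans (mul_le_mul_of_nonneg_right (le_abs_self C) ?_)
    have : 0 ≤ Real.log (1 + ‖x‖ ^ 2) := Real.log_nonneg (by nlinarith [sq_nonneg ‖x‖])
    linarith
  exact le_antisymm (le_of_bound hh hl (abs_nonneg C) hb' x 0)
    (le_of_bound hh hl (abs_nonneg C) hb' 0 x)

end Pool.Agent.K3h66.NX
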