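import Pool.Agent.K3h35.NX.Stm

/-!
# The integrated dilation derivative
-/

set_option autoImplicit false
open MeasureTheory Filter Topology Set Metric

namespace Pool.Agent.K3h66.NX

open Pool.Agent.H314.Dir

theorem hasDeriv_dil (g : Eu 2 → ℝ) (hg : ContDiff ℝ 1 g) (x : Eu 2) (r : ℝ) :
    HasDerivAt (fun r : ℝ => g (r • x)) (fderiv ℝ g (r • x) x) r := by
  have h1 : HasFDerivAt g (fderiv ℝ g (r • x)) (r • x) :=
    (hg.differentiable one_ne_zero _).hasFDerivAt
  have h2 : HasDerivAt (fun r : ℝ => r • x) x r := by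
    simpa using (hasDerivAt_id r).smul_const x
  exact h1.comp_hasDerivAt r h2

theorem cont_dil (g : Eu 2 → ℝ) (hg : ContDiff ℝ 1 g) :
    Continuous (fun z : ℝ × Eu 2 => fderiv ℝ g (z.1 • z.2) z.2) := by
  have h1 : Continuous (fderiv ℝ g) := hg.continuous_fderiv one_ne_zero
  exact (h1.comp (continuous_fst.smul continuous_snd)).clm_apply continuous_snd

theorem t_X6 : Pool.Agent.K3h35.NX.St_X6 := by
  intro g C hg hb hD
  have hgc : Continuous g := hg.continuous
  have hgi : Integrable g := by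
    have h1 : Integrable (fun x : Eu 2 => C * ((1 + ‖x‖ ^ 2) ^ 2)⁻¹) := by
      apply Integrable.const_mul
      have h2 : Integrable (fun x : Eu 2 => (1 + ‖x‖ ^ 2) ^ (-(4 : ℝ) / 2)) :=
        integrable_rpow_neg_one_add_norm_sq (by simp; norm_num)
      refine h2.congr (ae_of_all _ fun x => ?_)
      have h3 : (0 : ℝ) < 1 + ‖x‖ ^ 2 := by positivity
      show (1 + ‖x‖ ^ 2) ^ (-(4 : ℝ) / 2) = ((1 + ‖x‖ ^ 2) ^ 2)⁻¹
      rw [show (-(4 : ℝ) / 2) = -(2 : ℕ) by norm_num, Real.rpow_neg h3.le, Real.rpow_natCast]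
    exact h1.mono' hgc.aestronglyMeasurable (ae_of_all _ fun x => hb x)
  set D : Eu 2 → ℝ := fun x => fderiv ℝ g x x with hDdef
  let H : ℝ → Eu 2 → ℝ := fun r x => fderiv ℝ g (r • x) x
  have hH : ∀ r : ℝ, r ≠ 0 → ∀ x, H r x = r⁻¹ * D (r • x) := by
    intro r hr x
    show fderiv ℝ g (r • x) x = r⁻¹ * fderiv ℝ g (r • x) (r • x)
    rw [map_smul, smul_eq_mul, ← mul_assoc, inv_mul_cancel₀ hr, one_mul]
  have hfr : Module.finrank ℝ (Eu 2) = 2 := by simp
  have hint : ∀ r : ℝ, 0 < r → ∫ x, H r x = r ^ (-3 : ℤ) * ∫ x, D x := by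
    intro r hr
    have h1 : ∀ x, H r x = r⁻¹ * D (r • x) := hH r hr.ne'
    rw [integral_congr_ae (ae_of_all _ h1), integral_const_mul, Measure.integral_comp_smul, hfr,
      smul_eq_mul, abs_of_pos (by positivity), ← mul_assoc]
    congr 1
    rw [zpow_neg, ← mul_inv]
    congr 1
    norm_cast
    ring
  have hintn : ∀ r : ℝ, 0 < r → ∫ x, ‖H r x‖ = r ^ (-3 : ℤ) * ∫ x, ‖D x‖ := by
    intro r hr
    have h1 : ∀ x, ‖H r x‖ = r⁻¹ * ‖D (r • x)‖ := by
      intro x
      rw [hH r hr.ne', norm_mul, Real.norm_of_nonneg (inv_nonneg.2 hr.le)]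
    rw [integral_congr_ae (ae_of_all _ h1), integral_const_mul,
      Measure.integral_comp_smul volume (fun x => ‖D x‖) r, hfr,
      smul_eq_mul, abs_of_pos (by positivity), ← mul_assoc]
    congr 1
    rw [zpow_neg, ← mul_inv]
    congr 1
    norm_cast
    ring
  have hcz : ContinuousOn (fun r : ℝ => r ^ (-3 : ℤ)) (Icc 1 2) := by
    intro r hr
    exact (continuousAt_zpow₀ r (-3) (Or.inl (lt_of_lt_of_le one_pos hr.1).ne')).continuousWithinAt
  have hHc : Continuous (Function.uncurry H) := cont_dil g hg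
  -- integrability on the product
  have hpi : Integrable (Function.uncurry H) ((volume.restrict (Ioc (1 : ℝ) 2)).prod volume) := by
    rw [integrable_prod_iff hHc.aestronglyMeasurable]
    constructor
    · refine (ae_restrict_iff' measurableSet_Ioc).2 (ae_of_all _ fun r hr => ?_)
      have hr0 : (r : ℝ) ≠ 0 := (lt_trans one_pos hr.1).ne'
      have h1 : (fun x => H r x) = fun x => r⁻¹ * D (r • x) := funext (hH r hr0)
      show Integrable (fun x => H r x)
      rw [h1]
      exact (hD.comp_smul hr0).const_mul _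
    · have h1 : IntegrableOn (fun r : ℝ => r ^ (-3 : ℤ) * ∫ x, ‖D x‖) (Ioc 1 2) :=
        ((hcz.mul continuousOn_const).integrableOn_Icc).mono_set Ioc_subset_Icc_self
      refine h1.congr ((ae_restrict_iff' measurableSet_Ioc).2 (ae_of_all _ fun r hr => ?_))
      exact (hintn r (lt_trans one_pos hr.1)).symm
  have hswap : ∫ r in Ioc (1 : ℝ) 2, ∫ x, H r x = ∫ x, ∫ r in Ioc (1 : ℝ) 2, H r x :=
    integral_integral_swap hpi
  have hleft : ∫ r in Ioc (1 : ℝ) 2, ∫ x, H r x = 3 / 8 * ∫ x, D x := by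
    have h1 : ∫ r in Ioc (1 : ℝ) 2, ∫ x, H r x =
        ∫ r in Ioc (1 : ℝ) 2, r ^ (-3 : ℤ) * ∫ x, D x :=
      setIntegral_congr_fun measurableSet_Ioc fun r hr => hint r (lt_trans one_pos hr.1)
    rw [h1, integral_mul_const, ← intervalIntegral.integral_of_le one_le_two, integral_zpow]
    · norm_num
    · right
      refine ⟨by norm_num, ?_⟩
      rw [uIcc_of_le one_le_two]
      intro h
      linarith [h.1]
  have hright : ∫ x, ∫ r in Ioc (1 : ℝ) 2, H r x = -(3 / 4) * ∫ x, g x := by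
    have h1 : ∀ x, ∫ r in Ioc (1 : ℝ) 2, H r x = g ((2 : ℝ) • x) - g x := by
      intro x
      rw [← intervalIntegral.integral_of_le one_le_two,
        intervalIntegral.integral_eq_sub_of_hasDerivAt (fun r _ => hasDeriv_dil g hg x r), one_smul]
      exact (hHc.comp (continuous_id.prodMk continuous_const)).intervalIntegrable _ _
    rw [integral_congr_ae (ae_of_all _ h1), integral_sub (hgi.comp_smul two_ne_zero) hgi,
      Measure.integral_comp_smul, hfr, smul_eq_mul, abs_of_pos (by positivity)]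
    ring
  rw [hleft, hright] at hswap
  linarith

end Pool.Agent.K3h66.NX
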